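import Mathlib
import Pool.Agent.Q186.CaI

/-!
# The least rotation number of nontrivial centroaffine extremal curves

The plane is `ℂ`, `br u v = det (u, v)` and `curv γ = det (γ', γ'')`. `IsExtremal a T γ` says that
`γ` is a smooth closed curve of period `T` with `det (γ, γ') = 1` and curvature `p > 0` satisfying
`F'''/2 + 2 p F' + p' F = 0`, `F = p ^ (a - 1)`; `HasRot T γ m` says that the polar angle of `γ`
increases by `2 π m` over a period, and `minRot a` is the least `m` for which there is an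
extremal curve with rotation number `m` whose image is not an ellipse (`⊤` if there is none).
-/

namespace Pool.Agent.Results.MP_1d3344_gt.LeastRotation

open Q186.Ca

/-- **The least rotation number `m(a)` for every exponent `a ≠ 0`**, and `m(a) → ∞` as
`a → +∞`. -/
theorem result :
    (∀ a : ℝ, 1 < a →
      minRot a = ((⌊1 / (√((4 * a - 2) / (a - 1)) - 2)⌋₊ + 1 : ℕ) : ℕ∞)) ∧
    (∀ a : ℝ, a < 0 →
      minRot a = ((⌊1 / (2 - √((4 * a - 2) / (a - 1)))⌋₊ + 1 : ℕ) : ℕ∞)) ∧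
    (∀ a : ℝ, 0 < a → a < 1 / 3 →
      minRot a = ((⌊(1 - a) / (1 - 3 * a)⌋₊ + 1 : ℕ) : ℕ∞)) ∧
    (∀ a : ℝ, 1 / 3 < a → a < 1 / 2 →
      minRot a
        = ((max ⌊(1 - a) / (3 * a - 1)⌋₊ ⌊√((1 - a) / (2 - 4 * a))⌋₊ + 1 : ℕ) : ℕ∞)) ∧
    (∀ a : ℝ, a = 1 / 3 ∨ (1 / 2 ≤ a ∧ a ≤ 1) → minRot a = ⊤) ∧
    (∀ (n : ℕ) (a : ℝ), (n : ℝ) + 1 < a → (n : ℕ∞) < minRot a) := by
  refine ⟨fun a h => minRot_gt_one h, fun a h => minRot_neg h, fun a h1 h2 => minRot_small h1 h2,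
    fun a h1 h2 => minRot_mid h1 h2, ?_, minRot_large⟩
  rintro a (rfl | ⟨h1, h2⟩)
  · exact minRot_third
  · exact minRot_half h1 h2

end Pool.Agent.Results.MP_1d3344_gt.LeastRotation
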